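import Pool.Agent.Work.MP_c709de_al_top.Equal

namespace Pool.Agent.Results.MP_c709de_al.EqualityCase

open MPc709de MPc709deS

/-- The bound `C(e,m)` is attained exactly if `m < binom(e+2,2)` and `ℤ/m` contains a configuration
of the type `(k,t)`, where `m = e + 1 + binom(k+1,2) + t` and `0 ≤ t ≤ k`. -/
theorem result (e m : ℕ) (he : 3 ≤ e) (hem : e < m) :
    maxRho e m ≤ ((ERV e m : ℕ) : ℕ∞) ∧
      (maxRho e m = ((ERV e m : ℕ) : ℕ∞) ↔ m < (e + 2).choose 2 ∧
        ∃ k t : ℕ, t ≤ k ∧ m = e + 1 + ((k + 1).choose 2 + t) ∧ Config k t m) :=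
  ⟨MPc709deT.maxRho_le_ERV he hem, MPc709deT.equality he hem⟩

end Pool.Agent.Results.MP_c709de_al.EqualityCase
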