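import Pool.Agent.Work.MP_c709de_al_h19.Final

namespace Pool.Agent.Results.MP_c709de_al.ExactColumnThree

open MPc709de

/-- The exact value of the column `e = 3`: for every `m ≥ 4`,
`R(3,m) = ⌊2 √m⌋ + 2`, written with the integer square root of `4 m`. -/
theorem result (m : ℕ) (hm : 3 < m) : maxRho 3 m = ((Nat.sqrt (4 * m) + 2 : ℕ) : ℕ∞) :=
  MPc709deB.maxRho_three hm

end Pool.Agent.Results.MP_c709de_al.ExactColumnThree
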