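import Pool.Agent.Work.MP_c709de_al_thr.Final

namespace Pool.Agent.Results.MP_c709de_al.LinearThreshold

open MPc709de MPc709deS

/-- (1) The exact range of equality for `m = q^2+q+1`; (2), (3) the least `e` with
`R(e,e+1+s) = C(e,e+1+s)` is asymptotic to `s`, the largest `m` with `R(e,m) = C(e,m)` to `2 e`;
(4) equality holds for `e ≥ c s`, with `c ≤ 15` and `c → 3`, and only for `e ≥ s - 2 √(2 s)`. -/
theorem result :
    (∀ q e : ℕ, IsPrimePow q → q ≠ 3 → 3 ≤ e → e < q ^ 2 + q + 1 →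
      (maxRho e (q ^ 2 + q + 1) = ((ERV e (q ^ 2 + q + 1) : ℕ) : ℕ∞) ↔ q ^ 2 / 2 ≤ e)) ∧
    Filter.Tendsto (fun s : ℕ => ((sInf {e : ℕ | 3 ≤ e ∧
        maxRho e (e + 1 + s) = ((ERV e (e + 1 + s) : ℕ) : ℕ∞)} : ℕ) : ℝ) / s)
      Filter.atTop (nhds 1) ∧
    Filter.Tendsto (fun e : ℕ => ((sSup {m : ℕ | e < m ∧
        maxRho e m = ((ERV e m : ℕ) : ℕ∞)} : ℕ) : ℝ) / e) Filter.atTop (nhds 2) ∧
    ∃ c : ℕ → ℝ, (∀ s, c s ≤ 15) ∧ Filter.Tendsto c Filter.atTop (nhds 3) ∧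
      ∀ e s : ℕ, 3 ≤ e →
        (c s * s ≤ e → maxRho e (e + 1 + s) = ((ERV e (e + 1 + s) : ℕ) : ℕ∞)) ∧
        (maxRho e (e + 1 + s) = ((ERV e (e + 1 + s) : ℕ) : ℕ∞) →
          (s : ℝ) - 2 * Real.sqrt (2 * s) ≤ e) :=
  MPc709deU.final

end Pool.Agent.Results.MP_c709de_al.LinearThreshold
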