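import Pool.Agent.Work.MP_c709de_al_top.Uniform2

namespace Pool.Agent.Results.MP_c709de_al.UniformOrder

open MPc709de MPc709deS

/-- The order of magnitude of `R(e,m)` for all `3 ≤ e < m`: it is that of `C(e-1,m)`, up to a
factor that depends on `min e r` only, `r` being the number of the definition of `C(e,m)`; the
bound `C(e,m)` itself is sharp up to a factor depending on `r`; for fixed `e` the order is
`m^((e-2)/(e-1))`. -/
theorem result : ∃ K : ℕ → ℝ, ∀ e m : ℕ, 3 ≤ e → e < m →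
    ∃ N : ℕ, maxRho e m = N ∧
      ((ERV (e - 1) m : ℝ) ≤ K (min e (MPc709deS.rr e m)) * N ∧
        (N : ℝ) ≤ K (min e (MPc709deS.rr e m)) * ERV (e - 1) m) ∧
      (ERV e m : ℝ) ≤ K (MPc709deS.rr e m) * N ∧
      ((m : ℝ) ^ (((e : ℝ) - 2) / ((e : ℝ) - 1)) ≤ K e * N ∧
        (N : ℝ) ≤ K e * (m : ℝ) ^ (((e : ℝ) - 2) / ((e : ℝ) - 1))) :=
  MPc709deT.uniform_growth

end Pool.Agent.Results.MP_c709de_al.UniformOrder
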